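import Mathlib

/-! Hashing for the triples `(x, x + d, x + 2 d)`, `d ∈ {0,1}^n`. -/

open Finset

namespace Pool.Agent.H311.TC

/-- pairs `(x, d)` -/
abbrev P (n : ℕ) := (Fin n → ZMod 3) × (Fin n → Bool)

/-- a bit as an element of `F_3` -/
def b3 (b : Bool) : ZMod 3 := if b then 1 else 0

def X {n : ℕ} (t : P n) : Fin n → ZMod 3 := t.1
def Y {n : ℕ} (t : P n) : Fin n → ZMod 3 := fun i => t.1 i + b3 (t.2 i)
def Z {n : ℕ} (t : P n) : Fin n → ZMod 3 := fun i => t.1 i + b3 (t.2 i) + b3 (t.2 i)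

def A (t : ZMod 3) : ℕ := if t = 0 then 0 else if t = 1 then 1 else 3

section

variable {n p : ℕ}

def al (p : ℕ) (t : ZMod 3) : ZMod p := (A t : ZMod p)
def be (p : ℕ) (t : ZMod 3) : ZMod p := -(A t : ZMod p) - (A (t - 1) : ZMod p)
def ga (p : ℕ) (t : ZMod 3) : ZMod p := (A (t - 1) : ZMod p)

lemma tight0 : ∀ (t : ZMod 3) (b : Bool),
    (A t : ℤ) + (-(A (t + b3 b) : ℤ) - (A (t + b3 b - 1) : ℤ)) + (A (t + b3 b + b3 b - 1) : ℤ) = 0 := by
  decide

lemma tight (t : ZMod 3) (b : Bool) :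
    al p t + be p (t + b3 b) + ga p (t + b3 b + b3 b) = 0 := by
  have h := congrArg (Int.cast : ℤ → ZMod p) (tight0 t b)
  push_cast at h
  exact h

lemma A_inj : ∀ s t : ZMod 3, A s = A t → s = t := by decide
lemma A2_inj : ∀ s t : ZMod 3, A s + A (s - 1) = A t + A (t - 1) → s = t := by decide
lemma A_le : ∀ s : ZMod 3, A s ≤ 3 := by decide
lemma A2_le : ∀ s : ZMod 3, A s + A (s - 1) ≤ 4 := by decide

lemma cast_inj (hp : 5 ≤ p) {a b : ℕ} (ha : a ≤ 4) (hb : b ≤ 4) (h : (a : ZMod p) = b) : a = b := by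
  have := (ZMod.natCast_eq_natCast_iff' a b p).1 h
  rwa [Nat.mod_eq_of_lt (by omega), Nat.mod_eq_of_lt (by omega)] at this

lemma al_inj (hp : 5 ≤ p) {s t : ZMod 3} (h : al p s = al p t) : s = t :=
  A_inj s t (cast_inj hp ((A_le s).trans (by norm_num)) ((A_le t).trans (by norm_num)) h)

lemma be_inj (hp : 5 ≤ p) {s t : ZMod 3} (h : be p s = be p t) : s = t := by
  apply A2_inj s t
  apply cast_inj hp (A2_le s) (A2_le t)
  unfold be at h
  push_cast
  linear_combination -h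

/-- the hash parameters -/
abbrev Om (n p : ℕ) := (Fin n → ZMod p) × ZMod p × ZMod p

def hx (o : Om n p) (x : Fin n → ZMod 3) : ZMod p := ∑ i, o.1 i * al p (x i) + o.2.1
def hy (o : Om n p) (y : Fin n → ZMod 3) : ZMod p := ∑ i, o.1 i * be p (y i) + o.2.2

variable [Fact p.Prime]

noncomputable def hz (o : Om n p) (z : Fin n → ZMod 3) : ZMod p :=
  (o.2.1 + o.2.2 - ∑ i, o.1 i * ga p (z i)) / 2

lemma two_ne (hp : 5 ≤ p) : (2 : ZMod p) ≠ 0 := by
  intro h
  have h1 : ((2 : ℕ) : ZMod p) = ((0 : ℕ) : ZMod p) := by exact_mod_cast h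
  have := cast_inj hp (by norm_num) (by norm_num) h1
  omega

lemma hsum (hp : 5 ≤ p) (o : Om n p) (t : P n) : hx o (X t) + hy o (Y t) = 2 * hz o (Z t) := by
  have h2 := two_ne hp
  unfold hz
  rw [mul_div_cancel₀ _ h2]
  have h : ∑ i, o.1 i * al p (X t i) + ∑ i, o.1 i * be p (Y t i) + ∑ i, o.1 i * ga p (Z t i) = 0 := by
    rw [← sum_add_distrib, ← sum_add_distrib]
    apply sum_eq_zero
    intro i _
    have := tight (p := p) (t.1 i) (t.2 i)
    unfold X Y Z
    linear_combination (o.1 i) * this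
  unfold hx hy
  linear_combination h

def E (B : Finset (ZMod p)) (o : Om n p) (t : P n) : Prop :=
  hx o (X t) ∈ B ∧ hy o (Y t) ∈ B ∧ hz o (Z t) ∈ B

/-- no progressions -/
def Free3 (B : Finset (ZMod p)) : Prop := ∀ a ∈ B, ∀ b ∈ B, ∀ c ∈ B, a + b = 2 * c → a = c ∧ b = c

lemma E_eq (hp : 5 ≤ p) {B : Finset (ZMod p)} (hB : Free3 B) {o : Om n p} {t : P n} (h : E B o t) :
    hx o (X t) = hz o (Z t) ∧ hy o (Y t) = hz o (Z t) :=
  hB _ h.1 _ h.2.1 _ h.2.2 (hsum hp o t)

def Conf (t t' : P n) : Prop := t ≠ t' ∧ (X t = X t' ∨ Y t = Y t' ∨ Z t = Z t')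

lemma b3_inj : ∀ a b : Bool, b3 a = b3 b → a = b := by decide
lemma b3_inj2 : ∀ a b : Bool, b3 a + b3 a = b3 b + b3 b → a = b := by decide

lemma eq_of_XY {t t' : P n} (h1 : X t = X t') (h2 : Y t = Y t') : t = t' := by
  apply Prod.ext h1
  funext i
  have h3 := congrFun h2 i
  have h4 := congrFun h1 i
  unfold Y at h3
  unfold X at h4
  rw [h4] at h3
  exact b3_inj _ _ (add_left_cancel h3)

/-- conflicts have a common hash value and differ in `X` or `Y` -/
lemma conf_cases (hp : 5 ≤ p) {B : Finset (ZMod p)} (hB : Free3 B) {o : Om n p} {t t' : P n}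
    (hc : Conf t t') (h : E B o t) (h' : E B o t') :
    hx o (X t) = hx o (X t') ∧ hy o (Y t) = hy o (Y t') := by
  obtain ⟨e1, e2⟩ := E_eq hp hB h
  obtain ⟨e3, e4⟩ := E_eq hp hB h'
  rcases hc.2 with h1 | h1 | h1
  · have h5 : hx o (X t) = hx o (X t') := by rw [h1]
    exact ⟨h5, by rw [e2, e4, ← e1, ← e3, h5]⟩
  · have h5 : hy o (Y t) = hy o (Y t') := by rw [h1]
    exact ⟨by rw [e1, e3, ← e2, ← e4, h5], h5⟩
  · have h5 : hz o (Z t) = hz o (Z t') := by rw [h1]
    exact ⟨by rw [e1, e3, h5], by rw [e2, e4, h5]⟩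

/-- many hash parameters are good for a triple -/
lemma count1 (hp : 5 ≤ p) (B : Finset (ZMod p)) (t : P n) [DecidablePred fun o : Om n p => E B o t] :
    B.card * p ^ n ≤ (univ.filter fun o : Om n p => E B o t).card := by
  classical
  have e : B.card * p ^ n = (B ×ˢ (univ : Finset (Fin n → ZMod p))).card := by
    rw [card_product, card_univ, Fintype.card_fun, ZMod.card, Fintype.card_fin]
  rw [e]
  apply card_le_card_of_injOn (fun q : ZMod p × (Fin n → ZMod p) =>
    ((q.2, q.1 - ∑ i, q.2 i * al p (X t i), q.1 - ∑ i, q.2 i * be p (Y t i)) : Om n p))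
  · rintro ⟨b, w⟩ hq
    have hb : b ∈ B := (mem_product.1 (mem_coe.1 hq)).1
    rw [mem_coe, mem_filter]
    refine ⟨mem_univ _, ?_⟩
    set o : Om n p := (w, b - ∑ i, w i * al p (X t i), b - ∑ i, w i * be p (Y t i)) with ho
    have h1 : hx o (X t) = b := by simp [hx, ho]
    have h2 : hy o (Y t) = b := by simp [hy, ho]
    have h3 : hz o (Z t) = b := by
      have h := hsum hp o t
      rw [h1, h2, ← two_mul] at h
      exact (mul_left_cancel₀ (two_ne hp) h).symm
    exact ⟨by rw [h1]; exact hb, by rw [h2]; exact hb, by rw [h3]; exact hb⟩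
  · rintro ⟨b, w⟩ _ ⟨b', w'⟩ _ h
    simp only [Prod.mk.injEq] at h
    obtain ⟨rfl, h2, -⟩ := h
    rw [sub_left_inj] at h2
    rw [h2]

/-- hyperplanes -/
lemma hyper (c : Fin n → ZMod p) (j : Fin n) (hj : c j ≠ 0)
    [DecidablePred fun w : Fin n → ZMod p => ∑ i, w i * c i = 0] :
    (univ.filter fun w : Fin n → ZMod p => ∑ i, w i * c i = 0).card * p ≤ p ^ n := by
  classical
  have e : (univ.filter fun w : Fin n → ZMod p => ∑ i, w i * c i = 0).card * p =
      ((univ.filter fun w : Fin n → ZMod p => ∑ i, w i * c i = 0) ×ˢ (univ : Finset (ZMod p))).card := by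
    rw [card_product, card_univ, ZMod.card]
  have e2 : p ^ n = (univ : Finset (Fin n → ZMod p)).card := by
    rw [card_univ, Fintype.card_fun, ZMod.card, Fintype.card_fin]
  rw [e, e2]
  have key : ∀ (w : Fin n → ZMod p) (s : ZMod p), ∑ i, w i * c i = 0 →
      ∑ i, (w + Pi.single j s : Fin n → ZMod p) i * c i = s * c j := by
    intro w s hw
    simp only [Pi.add_apply, add_mul, sum_add_distrib, hw, zero_add]
    rw [sum_eq_single j]
    · rw [Pi.single_eq_same]
    · intro i _ hi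
      rw [Pi.single_eq_of_ne hi, zero_mul]
    · intro h; exact absurd (mem_univ j) h
  apply card_le_card_of_injOn (fun q : (Fin n → ZMod p) × ZMod p => q.1 + Pi.single j q.2)
  · intro q _; simp
  · rintro ⟨w, s⟩ hq ⟨w', s'⟩ hq' h
    have h1 : ∑ i, w i * c i = 0 := (mem_filter.1 (mem_product.1 (mem_coe.1 hq)).1).2
    have h2 : ∑ i, w' i * c i = 0 := (mem_filter.1 (mem_product.1 (mem_coe.1 hq')).1).2
    simp only at h
    have h3 := key w s h1
    rw [h, key w' s' h2] at h3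
    have h4 : s' = s := mul_right_cancel₀ hj h3
    subst h4
    rw [add_left_inj] at h
    rw [h]

end

end Pool.Agent.H311.TC
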