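import Pool.Agent.H311.TC.Main

/-! The multicoloured version of the problem: matchings of size `3^n exp (- 13 √n)`. -/

open Finset

namespace Pool.Agent.H311.TC

lemma exists_B (p N : ℕ) [Fact p.Prime] (hN : 2 * N ≤ p) :
    ∃ B : Finset (ZMod p), Free3 B ∧ B.card = rothNumberNat N := by
  classical
  obtain ⟨t, ht, hc, hf⟩ := rothNumberNat_spec N
  have hlt : ∀ a ∈ t, a < N := fun a ha => mem_range.1 (ht ha)
  have hcast : ∀ a b : ℕ, a < p → b < p → (a : ZMod p) = (b : ZMod p) → a = b := by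
    intro a b ha hb h
    have h1 := (ZMod.natCast_eq_natCast_iff' a b p).1 h
    rwa [Nat.mod_eq_of_lt ha, Nat.mod_eq_of_lt hb] at h1
  refine ⟨t.image (fun a : ℕ => (a : ZMod p)), ?_, ?_⟩
  · intro a ha b hb c hc' h
    obtain ⟨a', ha', rfl⟩ := mem_image.1 ha
    obtain ⟨b', hb', rfl⟩ := mem_image.1 hb
    obtain ⟨c', hc'', rfl⟩ := mem_image.1 hc'
    have l1 := hlt a' ha'
    have l2 := hlt b' hb'
    have l3 := hlt c' hc''
    have h1 : ((a' + b' : ℕ) : ZMod p) = ((2 * c' : ℕ) : ZMod p) := by push_cast; exact h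
    have h2 : a' + b' = 2 * c' := hcast _ _ (by omega) (by omega) h1
    have h3 : a' = c' := hf (mem_coe.2 ha') (mem_coe.2 hc'') (mem_coe.2 hb') (by omega)
    have h4 : b' = c' := by omega
    rw [h3, h4]
    exact ⟨rfl, rfl⟩
  · rw [card_image_of_injOn, hc]
    intro a ha b hb h
    have l1 := hlt a (mem_coe.1 ha)
    have l2 := hlt b (mem_coe.1 hb)
    exact hcast a b (by omega) (by omega) h

/-- many pairs `(x, d)` which are isolated with respect to a hashing -/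
theorem exists_large (n : ℕ) (hn : 1 ≤ n) : ∃ S : Finset (P n),
    (∀ s ∈ S, ∀ t ∈ S, ∀ u ∈ S, ∀ r : P n, X r = X s → Y r = Y t → Z r = Z u → s = t ∧ t = u) ∧
    (3 : ℝ) ^ n * Real.exp (-13 * √(n : ℝ)) ≤ (S.card : ℝ) := by
  obtain ⟨p, hp, hp1, hp2⟩ := Nat.exists_prime_lt_and_le_two_mul (6 * 2 ^ n) (by positivity)
  have : Fact p.Prime := ⟨hp⟩
  have h2n : 1 ≤ 2 ^ n := Nat.one_le_two_pow
  have hp5 : 5 ≤ p := by omega
  obtain ⟨B, hB, hBc⟩ := exists_B p (p / 2) (by omega)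
  obtain ⟨o, ho⟩ := exists_iso hp5 hp1.le hB
  refine ⟨iso B o, fun s hs t ht u hu r h1 h2 h3 => iso_matching hs ht hu h1 h2 h3, ?_⟩
  set I : ℝ := ((iso B o : Finset (P n)).card : ℝ) with hI
  have hI0 : 0 ≤ I := Nat.cast_nonneg _
  have hpR : (0 : ℝ) < p := by exact_mod_cast hp.pos
  have hn' : (1 : ℝ) ≤ n := by exact_mod_cast hn
  have hs1 : 1 ≤ √(n : ℝ) := Real.one_le_sqrt.2 hn'
  -- the logarithm
  have hN1 : (1 : ℝ) ≤ ((p / 2 : ℕ) : ℝ) := by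
    have : 1 ≤ p / 2 := by omega
    exact_mod_cast this
  have hlog : Real.log ((p / 2 : ℕ) : ℝ) ≤ 4 * n := by
    rw [Real.log_le_iff_le_exp (by linarith)]
    have e1 : (((p / 2 : ℕ) : ℝ)) ≤ 12 * 2 ^ n := by
      have : p / 2 ≤ 12 * 2 ^ n := by omega
      exact_mod_cast this
    have e2 : (12 : ℝ) * 2 ^ n ≤ 24 ^ n := by
      obtain ⟨m, rfl⟩ : ∃ m, n = m + 1 := ⟨n - 1, by omega⟩
      have : (2 : ℝ) ^ m ≤ 24 ^ m := by gcongr; norm_num
      rw [pow_succ, pow_succ]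
      nlinarith
    have e3 : (24 : ℝ) ^ n ≤ Real.exp (4 * n) := by
      rw [mul_comm, Real.exp_nat_mul]
      gcongr
      have h1 := Real.exp_one_gt_d9
      have h2 : Real.exp 4 = Real.exp 1 ^ 4 := by rw [← Real.exp_nat_mul]; norm_num
      rw [h2]
      calc (24 : ℝ) ≤ 2.7 ^ 4 := by norm_num
        _ ≤ Real.exp 1 ^ 4 := by gcongr; linarith
    linarith
  have hsq : √(Real.log ((p / 2 : ℕ) : ℝ)) ≤ 2 * √(n : ℝ) := by
    calc √(Real.log ((p / 2 : ℕ) : ℝ)) ≤ √(4 * n) := Real.sqrt_le_sqrt hlog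
      _ = 2 * √(n : ℝ) := by
        rw [Real.sqrt_mul (by norm_num), show (4 : ℝ) = 2 ^ 2 by norm_num, Real.sqrt_sq (by norm_num)]
  set E8 := Real.exp (-8 * √(n : ℝ)) with hE8
  have hE8p : 0 < E8 := Real.exp_pos _
  have hBr : (p : ℝ) / 3 * E8 ≤ (B.card : ℝ) := by
    have h1 := Behrend.roth_lower_bound (N := p / 2)
    rw [← hBc] at h1
    refine le_trans ?_ h1
    have h2 : (p : ℝ) / 3 ≤ ((p / 2 : ℕ) : ℝ) := by
      have : p ≤ 3 * (p / 2) := by omega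
      have h3 : (p : ℝ) ≤ 3 * ((p / 2 : ℕ) : ℝ) := by exact_mod_cast this
      linarith
    have h4 : E8 ≤ Real.exp (-4 * √(Real.log ((p / 2 : ℕ) : ℝ))) := by
      apply Real.exp_le_exp.2
      linarith
    exact mul_le_mul h2 h4 hE8p.le (by linarith)
  have hmain : (6 : ℝ) ^ n * (B.card : ℝ) ≤ 2 * (p : ℝ) ^ 2 * I := by
    have := ho
    have h : (((6 ^ n * B.card : ℕ)) : ℝ) ≤ ((2 * p ^ 2 * (iso B o : Finset (P n)).card : ℕ) : ℝ) := by
      exact_mod_cast this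
    push_cast at h
    exact h
  have h6 : (6 : ℝ) ^ n = 3 ^ n * 2 ^ n := by rw [← mul_pow]; norm_num
  have hp12 : (p : ℝ) ≤ 12 * 2 ^ n := by
    have : p ≤ 12 * 2 ^ n := by omega
    exact_mod_cast this
  have h2p : (0 : ℝ) < 2 ^ n := by positivity
  have h3p : (0 : ℝ) < 3 ^ n := by positivity
  -- `3^n 2^n p/3 E8 ≤ 2 p^2 I`
  have a1 : (p : ℝ) * (3 ^ n * 2 ^ n * E8) ≤ p * (6 * p * I) := by
    have := mul_le_mul_of_nonneg_left hBr (show (0 : ℝ) ≤ 6 ^ n by positivity)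
    rw [h6] at this hmain
    nlinarith
  have a2 : 3 ^ n * 2 ^ n * E8 ≤ 6 * p * I := le_of_mul_le_mul_left a1 hpR
  have a3 : (2 : ℝ) ^ n * (3 ^ n * E8) ≤ 2 ^ n * (72 * I) := by
    have : 6 * (p : ℝ) * I ≤ 6 * (12 * 2 ^ n) * I := by gcongr
    nlinarith
  have a4 : 3 ^ n * E8 ≤ 72 * I := le_of_mul_le_mul_left a3 h2p
  have a5 : Real.exp (-13 * √(n : ℝ)) = E8 * Real.exp (-(5 * √(n : ℝ))) := by
    rw [hE8, ← Real.exp_add]
    congr 1
    ring
  have a6 : Real.exp (-(5 * √(n : ℝ))) ≤ 1 / 72 := by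
    rw [Real.exp_neg, inv_eq_one_div]
    apply one_div_le_one_div_of_le (by norm_num)
    have h1 := Real.exp_one_gt_d9
    have h2 : Real.exp 5 = Real.exp 1 ^ 5 := by rw [← Real.exp_nat_mul]; norm_num
    calc (72 : ℝ) ≤ 2.7 ^ 5 := by norm_num
      _ ≤ Real.exp 1 ^ 5 := by gcongr; linarith
      _ = Real.exp 5 := h2.symm
      _ ≤ _ := Real.exp_le_exp.2 (by linarith)
  rw [a5]
  calc (3 : ℝ) ^ n * (E8 * Real.exp (-(5 * √(n : ℝ)))) ≤ 3 ^ n * (E8 * (1 / 72)) := by gcongr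
    _ = 3 ^ n * E8 / 72 := by ring
    _ ≤ I := by linarith

/-- `x, x + d, x + 2 d` with `d` a vector with entries `0` and `1` -/
def RAP {n : ℕ} (x y z : Fin n → ZMod 3) : Prop :=
  ∃ d : Fin n → ZMod 3, (∀ i, d i = 0 ∨ d i = 1) ∧ y = x + d ∧ z = x + d + d

lemma rap_iff {n : ℕ} (x y z : Fin n → ZMod 3) : RAP x y z ↔ ∃ r : P n, X r = x ∧ Y r = y ∧ Z r = z := by
  constructor
  · rintro ⟨d, hd, rfl, rfl⟩
    refine ⟨(x, fun i => decide (d i = 1)), rfl, ?_, ?_⟩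
    · funext i
      unfold Y b3
      rcases hd i with h | h <;> simp [h]
    · funext i
      unfold Z b3
      rcases hd i with h | h <;> simp [h]
  · rintro ⟨r, rfl, rfl, rfl⟩
    refine ⟨fun i => b3 (r.2 i), fun i => ?_, rfl, rfl⟩
    unfold b3
    cases r.2 i <;> simp

theorem matching (n : ℕ) (hn : 1 ≤ n) :
    ∃ S : Finset ((Fin n → ZMod 3) × (Fin n → ZMod 3) × (Fin n → ZMod 3)),
      (∀ t ∈ S, RAP t.1 t.2.1 t.2.2) ∧
      (∀ s ∈ S, ∀ t ∈ S, ∀ u ∈ S, RAP s.1 t.2.1 u.2.2 → s = t ∧ t = u) ∧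
      (3 : ℝ) ^ n * Real.exp (-13 * √(n : ℝ)) ≤ (S.card : ℝ) := by
  classical
  obtain ⟨S, h1, h2⟩ := exists_large n hn
  have hinj : Function.Injective (fun r : P n => (X r, Y r, Z r)) := by
    intro a b h
    simp only [Prod.mk.injEq] at h
    exact eq_of_XY h.1 h.2.1
  refine ⟨S.image (fun r => (X r, Y r, Z r)), ?_, ?_, ?_⟩
  · intro t ht
    obtain ⟨r, -, rfl⟩ := mem_image.1 ht
    exact (rap_iff _ _ _).2 ⟨r, rfl, rfl, rfl⟩
  · intro s hs t ht u hu h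
    obtain ⟨s', hs', rfl⟩ := mem_image.1 hs
    obtain ⟨t', ht', rfl⟩ := mem_image.1 ht
    obtain ⟨u', hu', rfl⟩ := mem_image.1 hu
    obtain ⟨r, e1, e2, e3⟩ := (rap_iff _ _ _).1 h
    obtain ⟨rfl, rfl⟩ := h1 s' hs' t' ht' u' hu' r e1 e2 e3
    exact ⟨rfl, rfl⟩
  · rw [card_image_of_injective _ hinj]
    exact h2

end Pool.Agent.H311.TC
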