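import Pool.Agent.H311.TC.Basic

/-! The number of isolated triples. -/

open Finset

namespace Pool.Agent.H311.TC

variable {n p : ℕ} [Fact p.Prime]

lemma count2 (hp : 5 ≤ p) {B : Finset (ZMod p)} (hB : Free3 B) {t t' : P n} (hc : Conf t t')
    [DecidablePred fun o : Om n p => E B o t ∧ E B o t'] :
    (univ.filter fun o : Om n p => E B o t ∧ E B o t').card * p ≤ B.card * p ^ n := by
  classical
  -- a nonzero linear form vanishing at the good `w`
  obtain ⟨c, j, hj, hcw⟩ : ∃ (c : Fin n → ZMod p) (j : Fin n), c j ≠ 0 ∧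
      ∀ o : Om n p, E B o t → E B o t' → ∑ i, o.1 i * c i = 0 := by
    by_cases hX : X t = X t'
    · have hY : Y t ≠ Y t' := fun h => hc.1 (eq_of_XY hX h)
      obtain ⟨j, hj⟩ := Function.ne_iff.1 hY
      refine ⟨fun i => be p (Y t i) - be p (Y t' i), j, fun h => hj (be_inj hp (sub_eq_zero.1 h)), ?_⟩
      intro o h h'
      have h1 := (conf_cases hp hB hc h h').2
      unfold hy at h1
      simp only [mul_sub, sum_sub_distrib]
      linear_combination h1
    · obtain ⟨j, hj⟩ := Function.ne_iff.1 hX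
      refine ⟨fun i => al p (X t i) - al p (X t' i), j, fun h => hj (al_inj hp (sub_eq_zero.1 h)), ?_⟩
      intro o h h'
      have h1 := (conf_cases hp hB hc h h').1
      unfold hx at h1
      simp only [mul_sub, sum_sub_distrib]
      linear_combination h1
  have h1 : (univ.filter fun o : Om n p => E B o t ∧ E B o t').card ≤
      (B ×ˢ (univ.filter fun w : Fin n → ZMod p => ∑ i, w i * c i = 0)).card := by
    apply card_le_card_of_injOn (fun o : Om n p => (hx o (X t), o.1))
    · intro o ho
      obtain ⟨-, h, h'⟩ := mem_filter.1 (mem_coe.1 ho)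
      rw [mem_coe, mem_product, mem_filter]
      exact ⟨h.1, mem_univ _, hcw o h h'⟩
    · rintro ⟨w, u, v⟩ ho ⟨w', u', v'⟩ ho' h
      obtain ⟨-, h1, -⟩ := mem_filter.1 (mem_coe.1 ho)
      obtain ⟨-, h2, -⟩ := mem_filter.1 (mem_coe.1 ho')
      simp only [Prod.mk.injEq] at h
      obtain ⟨h3, rfl⟩ := h
      have h4 : hy (w, u, v) (Y t) = hy (w, u', v') (Y t) := by
        obtain ⟨a1, a2⟩ := E_eq hp hB h1
        obtain ⟨a3, a4⟩ := E_eq hp hB h2
        rw [a2, a4, ← a1, ← a3, h3]
      unfold hx at h3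
      unfold hy at h4
      rw [add_right_inj] at h3 h4
      simp only at h3 h4
      rw [h3, h4]
  rw [card_product] at h1
  calc _ ≤ B.card * (univ.filter fun w : Fin n → ZMod p => ∑ i, w i * c i = 0).card * p :=
        Nat.mul_le_mul_right _ h1
    _ = B.card * ((univ.filter fun w : Fin n → ZMod p => ∑ i, w i * c i = 0).card * p) := by ring
    _ ≤ _ := Nat.mul_le_mul_left _ (hyper c j hj)

lemma count3 (t : P n) [DecidablePred fun t' : P n => Conf t t'] :
    (univ.filter fun t' : P n => Conf t t').card ≤ 3 * 2 ^ n := by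
  classical
  have h : (univ.filter fun t' : P n => Conf t t') ⊆
      (univ.filter fun t' : P n => X t = X t') ∪ (univ.filter fun t' : P n => Y t = Y t') ∪
        (univ.filter fun t' : P n => Z t = Z t') := by
    intro t' ht'
    have h1 := (mem_filter.1 ht').2
    simp only [mem_union, mem_filter, mem_univ, true_and]
    rcases h1.2 with h | h | h
    · exact Or.inl (Or.inl h)
    · exact Or.inl (Or.inr h)
    · exact Or.inr h
  have hcard : (univ : Finset (Fin n → Bool)).card = 2 ^ n := by
    rw [card_univ, Fintype.card_fun, Fintype.card_bool, Fintype.card_fin]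
  have hf : ∀ (F : P n → Fin n → ZMod 3), (∀ a b : P n, F a = F b → a.2 = b.2 → a.1 = b.1) →
      (univ.filter fun t' : P n => F t = F t').card ≤ 2 ^ n := by
    intro F hF
    rw [← hcard]
    apply card_le_card_of_injOn (fun q : P n => q.2)
    · intro q _; simp
    · intro a ha b hb hab
      have h1 := (mem_filter.1 (mem_coe.1 ha)).2
      have h2 := (mem_filter.1 (mem_coe.1 hb)).2
      exact Prod.ext (hF a b (h1.symm.trans h2) hab) hab
  have hX := hf X (fun a b h _ => h)
  have hY := hf Y (fun a b h h2 => by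
    funext i
    have h3 := congrFun h i
    unfold Y at h3
    rw [h2] at h3
    exact add_right_cancel h3)
  have hZ := hf Z (fun a b h h2 => by
    funext i
    have h3 := congrFun h i
    unfold Z at h3
    rw [h2] at h3
    exact add_right_cancel (add_right_cancel h3))
  calc _ ≤ _ := card_le_card h
    _ ≤ _ := card_union_le _ _
    _ ≤ 2 ^ n + 2 ^ n + 2 ^ n := Nat.add_le_add ((card_union_le _ _).trans (Nat.add_le_add hX hY)) hZ
    _ = 3 * 2 ^ n := by ring

open Classical in
/-- the isolated triples -/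
noncomputable def iso (B : Finset (ZMod p)) (o : Om n p) : Finset (P n) :=
  univ.filter fun t => E B o t ∧ ∀ t', E B o t' → ¬ Conf t t'

open Classical in
lemma iso_ge (B : Finset (ZMod p)) (o : Om n p) :
    (univ.filter fun t : P n => E B o t).card ≤ (iso B o).card +
      ∑ t : P n, ∑ t' ∈ univ.filter (fun t' => Conf t t'), if E B o t ∧ E B o t' then 1 else 0 := by
  have h1 : (univ.filter fun t : P n => E B o t).card = ∑ t : P n, if E B o t then 1 else 0 := by
    rw [card_filter]
  have h2 : (iso B o).card = ∑ t : P n, if (E B o t ∧ ∀ t', E B o t' → ¬ Conf t t') then 1 else 0 := by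
    unfold iso
    rw [card_filter]
  rw [h1, h2, ← sum_add_distrib]
  apply sum_le_sum
  intro t _
  by_cases h : E B o t
  · rw [if_pos h]
    by_cases h' : ∀ t', E B o t' → ¬ Conf t t'
    · rw [if_pos ⟨h, h'⟩]; omega
    · push Not at h'
      obtain ⟨t', h3, h4⟩ := h'
      have h5 : 1 ≤ ∑ t' ∈ univ.filter (fun t' => Conf t t'), if E B o t ∧ E B o t' then 1 else 0 := by
        calc 1 = if E B o t ∧ E B o t' then 1 else 0 := by rw [if_pos ⟨h, h3⟩]
          _ ≤ _ := single_le_sum (f := fun t' => if E B o t ∧ E B o t' then 1 else 0)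
              (fun _ _ => Nat.zero_le _) (mem_filter.2 ⟨mem_univ _, h4⟩)
      omega
  · rw [if_neg h]; omega

lemma exists_iso (hp : 5 ≤ p) (hp2 : 6 * 2 ^ n ≤ p) {B : Finset (ZMod p)} (hB : Free3 B) :
    ∃ o : Om n p, 6 ^ n * B.card ≤ 2 * p ^ 2 * (iso B o : Finset (P n)).card := by
  classical
  by_contra hcon
  push Not at hcon
  have hOm : (univ : Finset (Om n p)).card = p ^ n * p ^ 2 := by
    rw [card_univ, Fintype.card_prod, Fintype.card_prod, Fintype.card_fun, ZMod.card, Fintype.card_fin]
    ring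
  have hP : (univ : Finset (P n)).card = 6 ^ n := by
    rw [card_univ, Fintype.card_prod, Fintype.card_fun, Fintype.card_fun, ZMod.card,
      Fintype.card_bool, Fintype.card_fin, ← mul_pow]
    norm_num
  have hp0 : 0 < p := by omega
  -- upper bound
  have hU : ∑ o : Om n p, 2 * p ^ 2 * (iso B o : Finset (P n)).card < p ^ n * p ^ 2 * (6 ^ n * B.card) := by
    calc _ < ∑ _o : Om n p, 6 ^ n * B.card := by
          apply sum_lt_sum_of_nonempty ⟨((fun _ => 0, 0, 0) : Om n p), mem_univ _⟩
          intro o _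
          exact hcon o
      _ = _ := by rw [sum_const, hOm, smul_eq_mul]
  -- lower bound
  have hL1 : 6 ^ n * (B.card * p ^ n) ≤ ∑ o : Om n p, (univ.filter fun t : P n => E B o t).card := by
    have e : ∑ o : Om n p, (univ.filter fun t : P n => E B o t).card =
        ∑ t : P n, (univ.filter fun o : Om n p => E B o t).card := by
      simp only [card_filter]
      exact sum_comm
    rw [e]
    calc 6 ^ n * (B.card * p ^ n) = ∑ _t : P n, B.card * p ^ n := by rw [sum_const, hP, smul_eq_mul]
      _ ≤ _ := sum_le_sum fun t _ => count1 hp B t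
  have hL2 : (∑ o : Om n p, ∑ t : P n, ∑ t' ∈ univ.filter (fun t' => Conf t t'),
      if E B o t ∧ E B o t' then 1 else 0) * p ≤ 6 ^ n * (3 * 2 ^ n * (B.card * p ^ n)) := by
    have e : (∑ o : Om n p, ∑ t : P n, ∑ t' ∈ univ.filter (fun t' => Conf t t'),
        if E B o t ∧ E B o t' then 1 else 0) =
        ∑ t : P n, ∑ t' ∈ univ.filter (fun t' => Conf t t'),
          (univ.filter fun o : Om n p => E B o t ∧ E B o t').card := by
      rw [sum_comm]
      apply sum_congr rfl
      intro t _
      rw [sum_comm]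
      apply sum_congr rfl
      intro t' _
      rw [card_filter]
    rw [e, sum_mul]
    calc _ ≤ ∑ _t : P n, 3 * 2 ^ n * (B.card * p ^ n) := by
          apply sum_le_sum
          intro t _
          rw [sum_mul]
          calc _ ≤ ∑ _t' ∈ univ.filter (fun t' => Conf t t'), B.card * p ^ n := by
                apply sum_le_sum
                intro t' ht'
                exact count2 hp hB (mem_filter.1 ht').2
            _ = (univ.filter (fun t' => Conf t t')).card * (B.card * p ^ n) := by
                rw [sum_const, smul_eq_mul]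
            _ ≤ _ := Nat.mul_le_mul_right _ (count3 t)
      _ = _ := by rw [sum_const, hP, smul_eq_mul]
  have hL3 : ∑ o : Om n p, (univ.filter fun t : P n => E B o t).card ≤
      ∑ o : Om n p, (iso B o : Finset (P n)).card + ∑ o : Om n p, ∑ t : P n,
        ∑ t' ∈ univ.filter (fun t' => Conf t t'), if E B o t ∧ E B o t' then 1 else 0 := by
    rw [← sum_add_distrib]
    exact sum_le_sum fun o _ => iso_ge B o
  rw [← mul_sum] at hU
  set I := ∑ o : Om n p, (iso B o : Finset (P n)).card
  set T := ∑ o : Om n p, (univ.filter fun t : P n => E B o t).card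
  set Q := ∑ o : Om n p, ∑ t : P n, ∑ t' ∈ univ.filter (fun t' => Conf t t'),
    if E B o t ∧ E B o t' then 1 else 0
  -- `T ≤ I + Q`, `6^n |B| p^n ≤ T`, `Q p ≤ 6^n 3 2^n |B| p^n`, `2 p^2 I < p^n p^2 6^n |B|`
  have h1 : 2 * I < p ^ n * (6 ^ n * B.card) := by
    have h : p ^ 2 * (2 * I) < p ^ 2 * (p ^ n * (6 ^ n * B.card)) := by
      calc _ = 2 * p ^ 2 * I := by ring
        _ < _ := hU
        _ = _ := by ring
    exact lt_of_mul_lt_mul_left h (Nat.zero_le _)
  have h2 : 2 * (Q * p) ≤ p * (6 ^ n * (B.card * p ^ n)) := by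
    calc 2 * (Q * p) ≤ 2 * (6 ^ n * (3 * 2 ^ n * (B.card * p ^ n))) := Nat.mul_le_mul_left _ hL2
      _ = (6 * 2 ^ n) * (6 ^ n * (B.card * p ^ n)) := by ring
      _ ≤ _ := Nat.mul_le_mul_right _ hp2
  have h3 : 2 * (6 ^ n * (B.card * p ^ n)) * p ≤ 2 * I * p + 2 * (Q * p) := by
    calc 2 * (6 ^ n * (B.card * p ^ n)) * p ≤ 2 * (I + Q) * p :=
          Nat.mul_le_mul_right _ (Nat.mul_le_mul_left _ (hL1.trans hL3))
      _ = _ := by ring
  have h4 : 2 * I * p < p ^ n * (6 ^ n * B.card) * p := Nat.mul_lt_mul_of_pos_right h1 hp0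
  have h5 : p ^ n * (6 ^ n * B.card) * p = p * (6 ^ n * (B.card * p ^ n)) := by ring
  have h6 : 2 * (6 ^ n * (B.card * p ^ n)) * p =
      p * (6 ^ n * (B.card * p ^ n)) + p * (6 ^ n * (B.card * p ^ n)) := by ring
  omega

/-- the isolated triples are a matching in the strong sense -/
lemma iso_matching {B : Finset (ZMod p)} {o : Om n p} {s t u : P n}
    (hs : s ∈ (iso B o : Finset (P n))) (ht : t ∈ (iso B o : Finset (P n)))
    (hu : u ∈ (iso B o : Finset (P n))) {r : P n}
    (h1 : X r = X s) (h2 : Y r = Y t) (h3 : Z r = Z u) : s = t ∧ t = u := by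
  classical
  obtain ⟨-, es, cs⟩ := mem_filter.1 hs
  obtain ⟨-, et, ct⟩ := mem_filter.1 ht
  obtain ⟨-, eu, cu⟩ := mem_filter.1 hu
  have er : E B o r := ⟨by rw [h1]; exact es.1, by rw [h2]; exact et.2.1, by rw [h3]; exact eu.2.2⟩
  have e1 : s = r := by
    by_contra h
    exact cs r er ⟨h, Or.inl h1.symm⟩
  have e2 : t = r := by
    by_contra h
    exact ct r er ⟨h, Or.inr (Or.inl h2.symm)⟩
  have e3 : u = r := by
    by_contra h
    exact cu r er ⟨h, Or.inr (Or.inr h3.symm)⟩
  exact ⟨e1.trans e2.symm, e2.trans e3.symm⟩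

end Pool.Agent.H311.TC
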